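import Pool.Agent.H.MP_8ff4bd_gt.M3.YES
import Pool.Agent.H.MP_8ff4bd_gt.M3.NO
import Pool.Agent.H.MP_8ff4bd_gt.M3.Sanity
import Pool.Agent.H.MP_8ff4bd_gt.M3.S.Indep

/-!
# Q2 is independent of ZFC

The direct sums of `ω₁` copies of the cyclic groups of order two and three: whether they are
homeomorphic for their pro-countable topologies can neither be proved nor refuted in ZFC.
-/

set_option autoImplicit false

namespace Pool.Agent.Results.MP_8ff4bd_gt.IndependentOfZFC

open FirstOrder Pool.Agent.H.MP_8ff4bd_gt.M3
open M3 (W1)

universe u

/-- There is a sentence `φ` of the first-order language of set theory such that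

1. in every epsilon-structure `(M, E)` the sentence `φ` says that for the set `w` of all countable
  ordinals (`w = ω₁`) and the sets `g`, `h` of all finitely supported functions from `w` to `2` and
  to `3` there is a bijection `g → h` which is continuous in both directions at every point, where
  the subgroups of countable index are the basic neighbourhoods of zero;
2. in the universe `ZFSet` of sets, `φ` is true if and only if the direct sums of `ω₁` copies of the
  cyclic groups of order two and of order three are homeomorphic for their pro-countable topologies;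
3. the theory `ZFC`, given as a set of sentences, has the expected models, and the universe of sets
  is one of them;
4. `φ` is not a consequence of `ZFC`, and the negation of `φ` is not a consequence of `ZFC`. -/
theorem result : ∃ φ : LSet.Sentence,
    (∀ (M : Type u) (E : M → M → Prop), Sat E φ ↔ Plain.Homeomorphic E) ∧
    (Sat (fun x y : ZFSet.{0} => x ∈ y) φ ↔
      Nonempty (@Homeomorph (W1 →₀ ZMod 2) (W1 →₀ ZMod 3) (_root_.M3.proCountable _)
        (_root_.M3.proCountable _))) ∧
    (∀ (M : Type u) (E : M → M → Prop),
      @FirstOrder.Language.Theory.Model LSet M (epsStr E) ZFC ↔ ZFCModel E) ∧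
    ZFCModel (fun x y : ZFSet.{0} => x ∈ y) ∧
    ¬ (ZFC ⊨ᵇ φ) ∧ ¬ (ZFC ⊨ᵇ FirstOrder.Language.BoundedFormula.not φ) := by
  refine ⟨homeoSentence, fun M E => sat_homeoSentence_iff E,
    _root_.M3.sat_homeoSentence_iff_homeomorph, fun M E => model_ZFC_iff,
    _root_.M3.BSet.zfcModel_ZFSet, ?_, ?_⟩
  · obtain ⟨B, _, _, hB, h⟩ := _root_.M3.NO
    refine (_root_.M3.BSet.bzfc (B := B)).not_models _ ?_
    rw [BStr.bval_homeoSentence, _root_.M3.BSet.bHomeo_eq hB, h]
    exact bot_ne_top
  · obtain ⟨B, _, _, hB, h⟩ := _root_.M3.YES
    refine (_root_.M3.BSet.bzfc (B := B)).not_models_not _ ?_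
    rw [BStr.bval_homeoSentence, _root_.M3.BSet.bHomeo_eq hB, h]
    exact top_ne_bot

end Pool.Agent.Results.MP_8ff4bd_gt.IndependentOfZFC
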