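import Pool.Agent.H.MP_8ff4bd_gt.M3.LocPoset
import Pool.Agent.H.MP_8ff4bd_gt.M3.Final1

/-!
# Q1 is independent of ZFC

The direct sums of `ω₁` copies of the cyclic groups of order two and three: whether they are
homeomorphic for their finest `ℵ₀`-bounded group topologies can neither be proved nor refuted in
ZFC.
-/

set_option autoImplicit false

namespace Pool.Agent.Results.MP_8ff4bd_gt.Q1IndependentOfZFC

open FirstOrder Pool.Agent.H.MP_8ff4bd_gt.M3
open M3 (W1 IsBddGroupTopology finestBounded)

universe u

/-- For every abelian group `K`, the topology `finestBounded K` is the finest `ℵ₀`-bounded group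
topology on `K` (finer topologies are smaller).  There is a sentence `φ` of the first-order
language of set theory such that

1. in every epsilon-structure `(M, E)` the sentence `φ` says that for the set `w` of all countable
  ordinals (`w = ω₁`) and the sets `g`, `h` of all finitely supported functions from `w` to `2` and
  to `3` there is a bijection `g → h` which is continuous in both directions at every point, where
  a set `u` is a neighbourhood of zero if it contains the set `v 0` for some sequence `v` of
  subsets of the group with `v (n + 1) - v (n + 1) ⊆ v n` such that for every `n` the group is the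
  union of countably many sets whose differences are in `v n`;
2. in the universe `ZFSet` of sets, `φ` is true if and only if the direct sums of `ω₁` copies of the
  cyclic groups of order two and of order three are homeomorphic for their finest `ℵ₀`-bounded group
  topologies;
3. the theory `ZFC`, given as a set of sentences, has the expected models, and the universe of sets
  is one of them;
4. `φ` is not a consequence of `ZFC`, and the negation of `φ` is not a consequence of `ZFC`. -/
theorem result :
    (∀ (K : Type) [AddCommGroup K], IsLeast {t | IsBddGroupTopology K t} (finestBounded K)) ∧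
    ∃ φ : LSet.Sentence,
    (∀ (M : Type u) (E : M → M → Prop), Sat E φ ↔ Plain.GHomeomorphic E) ∧
    (Sat (fun x y : ZFSet.{0} => x ∈ y) φ ↔
      Nonempty (@Homeomorph (W1 →₀ ZMod 2) (W1 →₀ ZMod 3) (finestBounded _)
        (finestBounded _))) ∧
    (∀ (M : Type u) (E : M → M → Prop),
      @FirstOrder.Language.Theory.Model LSet M (epsStr E) ZFC ↔ ZFCModel E) ∧
    ZFCModel (fun x y : ZFSet.{0} => x ∈ y) ∧
    ¬ (ZFC ⊨ᵇ φ) ∧ ¬ (ZFC ⊨ᵇ FirstOrder.Language.BoundedFormula.not φ) :=
  ⟨fun _ _ => _root_.M3.isLeast_finestBounded,
    _root_.M3.final1_of (_root_.M3.YES1_of (β := fun n => n) rfl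
      fun rho h => _root_.M3.locPoset rho h)⟩

end Pool.Agent.Results.MP_8ff4bd_gt.Q1IndependentOfZFC
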