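import Mathlib
import Pool.Agent.H.MP_8ff4bd_gt.Core
import Pool.Agent.H.MP_8ff4bd_gt.ClaimA
import Pool.Agent.H.MP_8ff4bd_gt.Rigid

/-!
Uniformly continuous maps between bounded groups of coprime exponents, for the finest
aleph-zero bounded group topology and for the pro-countable topology, are constant on the
cosets of a subgroup of countable index.
-/

namespace Pool.Agent.Results.MP_8ff4bd_gt.UniformRigidity

open Set Function Topology Pool.Agent.H.MP_8ff4bd_gt

universe u v w

/-- A topology `τ` on `K` is aleph-zero bounded if countably many translates of every non-empty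
open set cover `K`. -/
def Aleph0Bounded {K : Type u} [AddCommGroup K] (τ : TopologicalSpace K) : Prop :=
  ∀ U : Set K, IsOpen[τ] U → U.Nonempty →
    ∃ A : Set K, A.Countable ∧ ∀ x : K, ∃ u ∈ U, ∃ a ∈ A, u + a = x

/-- The finest aleph-zero bounded group topology on `K`: the join of all of them. (In Mathlib
the order on topologies is reversed, so that the join is the infimum `sInf`.) -/
def frakG (K : Type u) [AddCommGroup K] : TopologicalSpace K :=
  sInf {τ | @IsTopologicalAddGroup K τ _ ∧ Aleph0Bounded τ}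

/-- The pro-countable topology: the subgroups of countable index are a base at `0`. -/
def rho (K : Type u) [AddCommGroup K] : TopologicalSpace K where
  IsOpen U := ∀ x ∈ U, ∃ N : AddSubgroup K, Countable (K ⧸ N) ∧ ∀ h ∈ N, x + h ∈ U
  isOpen_univ := fun _ _ => ⟨⊤, countable_quotient_of_map (T := Unit) _ (fun _ => ())
    (fun _ _ _ => AddSubgroup.mem_top _), fun _ _ => mem_univ _⟩
  isOpen_inter := by
    intro U V hU hV x hx
    obtain ⟨N, hN, h1⟩ := hU x hx.1
    obtain ⟨M, hM, h2⟩ := hV x hx.2
    refine ⟨N ⊓ M, ?_, fun h hh => ⟨h1 h hh.1, h2 h hh.2⟩⟩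
    refine countable_quotient_of_map (T := (K ⧸ N) × (K ⧸ M)) _
      (fun x => ((QuotientAddGroup.mk x : K ⧸ N), (QuotientAddGroup.mk x : K ⧸ M))) ?_
    intro x y hxy
    rw [Prod.mk.injEq, QuotientAddGroup.eq, QuotientAddGroup.eq] at hxy
    have e : x - y = -(-x + y) := by abel
    rw [e]
    exact ⟨N.neg_mem hxy.1, M.neg_mem hxy.2⟩
  isOpen_sUnion := by
    intro S hS x hx
    obtain ⟨U, hU, hxU⟩ := hx
    obtain ⟨N, hN, h1⟩ := hS U hU x hxU
    exact ⟨N, hN, fun h hh => ⟨U, hU, h1 h hh⟩⟩

/-- A subgroup of countable index is a neighbourhood of `0` for the pro-countable topology. -/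
theorem mem_nhds_rho {K : Type u} [AddCommGroup K] (N : AddSubgroup K) (hN : Countable (K ⧸ N)) :
    (N : Set K) ∈ @nhds K (rho K) 0 := by
  letI := rho K
  refine IsOpen.mem_nhds ?_ N.zero_mem
  intro x hx
  exact ⟨N, hN, fun h hh => N.add_mem hx hh⟩

/-- Given finitely many neighbourhoods of `0` in aleph-zero bounded group topologies, there is a
countable type classifying points up to differences in all the neighbourhoods. -/
theorem exists_countable_classifier {K : Type u} [AddCommGroup K] {ι : Type v}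
    (I : Set ι) (hI : I.Finite) (τ : ι → TopologicalSpace K)
    (hτ : ∀ i, @IsTopologicalAddGroup K (τ i) _ ∧ Aleph0Bounded (τ i))
    (V : ι → Set K) (hV : ∀ i, V i ∈ @nhds K (τ i) 0) :
    ∃ (T : Type (max u v)) (_ : Countable T) (φ : K → T),
      ∀ x y, φ x = φ y → x - y ∈ ⋂ i ∈ I, V i := by
  have h1 : ∀ i, ∃ W : Set K, IsOpen[τ i] W ∧ (0 : K) ∈ W ∧ ∀ a ∈ W, ∀ b ∈ W, a - b ∈ V i := by
    intro i
    letI := τ i
    haveI := (hτ i).1
    obtain ⟨W, hW, h⟩ := exists_nhds_half_neg (hV i)
    refine ⟨interior W, isOpen_interior, mem_interior_iff_mem_nhds.2 hW, ?_⟩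
    intro a ha b hb
    exact h a (interior_subset ha) b (interior_subset hb)
  choose W hWo hW0 hWV using h1
  have h2 : ∀ i, ∃ A : Set K, A.Countable ∧ ∀ x : K, ∃ u ∈ W i, ∃ a ∈ A, u + a = x :=
    fun i => (hτ i).2 (W i) (hWo i) ⟨0, hW0 i⟩
  choose S hSc hS using h2
  choose p hp q hq hpq using hS
  haveI : ∀ i, Countable (S i) := fun i => (hSc i).to_subtype
  haveI : Finite I := hI.to_subtype
  refine ⟨(i : I) → S i, inferInstance, fun x i => ⟨q i x, hq i x⟩, ?_⟩
  intro x y hxy
  simp only [mem_iInter]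
  intro i hi
  have h3 : q i x = q i y := by
    have := congrFun hxy ⟨i, hi⟩
    exact congrArg Subtype.val this
  have h4 : x - y = p i x - p i y := by
    have h5 := hpq i x
    have h6 := hpq i y
    rw [h3] at h5
    calc x - y = (p i x + q i y) - (p i y + q i y) := by rw [h5, h6]
      _ = p i x - p i y := by abel
  rw [h4]
  exact hWV i _ (hp i x) _ (hp i y)

/-- A neighbourhood of `0` in the finest aleph-zero bounded topology admits a countable
classifier. -/
theorem exists_classifier_frakG {K : Type u} [AddCommGroup K] {U : Set K}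
    (hU : U ∈ @nhds K (frakG K) 0) :
    ∃ (T : Type u) (_ : Countable T) (φ : K → T), ∀ x y, φ x = φ y → x - y ∈ U := by
  unfold frakG at hU
  rw [nhds_sInf, ← iInf_subtype'', Filter.mem_iInf'] at hU
  obtain ⟨I, hI, V, hV, -, hUV, -⟩ := hU
  obtain ⟨T, hT, φ, hφ⟩ := exists_countable_classifier I hI
    (fun i : {τ : TopologicalSpace K | @IsTopologicalAddGroup K τ _ ∧ Aleph0Bounded τ} =>
      (i : TopologicalSpace K)) (fun i => i.2) V hV
  exact ⟨T, hT, φ, fun x y h => by rw [hUV]; exact hφ x y h⟩

/-- Sanity check: `frakG K` is the finest aleph-zero bounded group topology on `K`. -/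
theorem frakG_isLeast (K : Type u) [AddCommGroup K] :
    IsLeast {τ : TopologicalSpace K | @IsTopologicalAddGroup K τ _ ∧ Aleph0Bounded τ}
      (frakG K) := by
  have hgrp : @IsTopologicalAddGroup K (frakG K) _ :=
    topologicalAddGroup_sInf (fun t ht => ht.1)
  refine ⟨⟨hgrp, ?_⟩, fun t ht => sInf_le ht⟩
  intro U hU hne
  letI := frakG K
  haveI := hgrp
  obtain ⟨u0, hu0⟩ := hne
  have h0 : (fun x => u0 - x) ⁻¹' U ∈ 𝓝 (0 : K) := by
    apply IsOpen.mem_nhds
    · exact hU.preimage (continuous_const.sub continuous_id)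
    · simpa using hu0
  obtain ⟨T, hT, φ, hφ⟩ := exists_classifier_frakG h0
  have hs : ∀ t : range φ, ∃ c : K, φ c = t := fun t => t.2
  choose c hc using hs
  refine ⟨range (fun t : range φ => c t - u0), countable_range _, fun x => ?_⟩
  have h1 := hφ (c ⟨φ x, ⟨x, rfl⟩⟩) x (hc _)
  refine ⟨_, h1, _, ⟨⟨φ x, ⟨x, rfl⟩⟩, rfl⟩, ?_⟩
  dsimp only
  abel

/-- A subgroup which is a neighbourhood of `0` in the finest aleph-zero bounded group topology
has countable index. -/
theorem countable_quotient_of_mem_nhds_frakG {K : Type u} [AddCommGroup K] (N : AddSubgroup K)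
    (hN : (N : Set K) ∈ @nhds K (frakG K) 0) : Countable (K ⧸ N) := by
  obtain ⟨T, hT, φ, hφ⟩ := exists_classifier_frakG hN
  exact countable_quotient_of_map N φ hφ

/-- **Main result.** Let `m` annihilate the abelian group `A`, let `C` be a countable abelian
group in which `m • c = 0` only for `c = 0`, and let `κ` be a set of cardinality at most the
continuum. Every map `f` from `A` to the direct sum of `κ` copies of `C` which is uniformly
continuous from the finest aleph-zero bounded group topology on `A` to the pro-countable topology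
is constant on the cosets of a subgroup of `A` of countable index. -/
theorem result {A : Type u} [AddCommGroup A] {κ : Type v} {C : Type w} [AddCommGroup C]
    [Countable C] (hκ : Cardinal.mk κ ≤ Cardinal.continuum) (m : ℕ)
    (hA : ∀ a : A, m • a = 0) (hC : ∀ c : C, m • c = 0 → c = 0) (f : A → κ →₀ C)
    (hf : ∀ V ∈ @nhds (κ →₀ C) (rho (κ →₀ C)) 0, ∃ U ∈ @nhds A (frakG A) 0,
      ∀ x y : A, x - y ∈ U → f x - f y ∈ V) :
    ∃ N : AddSubgroup A, Countable (A ⧸ N) ∧ ∀ x : A, ∀ h ∈ N, f (x + h) = f x := by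
  have h1 : ∀ N : AddSubgroup (κ →₀ C), Countable ((κ →₀ C) ⧸ N) →
      Countable (A ⧸ perSub f N) := by
    intro N hN
    obtain ⟨U, hU, hUN⟩ := hf _ (mem_nhds_rho N hN)
    refine countable_quotient_of_mem_nhds_frakG _ (Filter.mem_of_superset hU ?_)
    intro u hu x
    exact hUN (x + u) x (by simpa using hu)
  obtain ⟨r, hr⟩ : ∃ r : κ → ℕ → Bool, Injective r := by
    have h2 : Cardinal.lift.{0} (Cardinal.mk κ) ≤ Cardinal.lift.{v} (Cardinal.mk (ℕ → Bool)) := by
      rw [Cardinal.lift_id'.{0, v}]
      simpa using hκ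
    obtain ⟨e⟩ := Cardinal.lift_mk_le'.1 h2
    exact ⟨e, e.injective⟩
  have h3 := rigid r hr m hA hC f h1
  refine ⟨perSub f ⊥, h3, fun x h hh => ?_⟩
  have := hh x
  rwa [AddSubgroup.mem_bot, sub_eq_zero] at this

end Pool.Agent.Results.MP_8ff4bd_gt.UniformRigidity
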